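import Mathlib
import Pool.Agent.Results.MP_1b21e4_co.ThreeJoin

/-!
# Spheres without large missing faces: Euler-Poincare, Dehn-Sommerville and uniqueness
-/

set_option autoImplicit false

open Finset

namespace Pool.Agent.Q250.GUniq

open Pool.Agent.Results.MP_1b21e4_co.ThreeJoin

/-! ### Euler–Poincaré over `ZMod 2` -/

section hom

variable {V : Type} [Fintype V] [DecidableEq V]

theorem bd_bd (c : Finset V → ZMod 2) : bd (bd c) = 0 := by
  funext ρ
  rw [bd_apply]
  simp only [bd_apply, Pi.zero_apply]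
  rw [Finset.sum_sigma']
  apply Finset.sum_involution (g := fun (a : (_ : V) × V) _ => ⟨a.2, a.1⟩)
  · rintro ⟨v, w⟩ h
    simp only [Finset.mem_sigma, Finset.mem_compl, Finset.mem_insert, not_or] at h
    have : insert v (insert w ρ) = insert w (insert v ρ) := Finset.insert_comm _ _ _
    simp only
    rw [this]
    exact CharTwo.add_self_eq_zero _
  · rintro ⟨v, w⟩ h _
    simp only [Finset.mem_sigma, Finset.mem_compl, Finset.mem_insert, not_or] at h
    intro h2
    simp only [Sigma.mk.injEq, heq_eq_eq] at h2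
    exact h.2.1 h2.1
  · rintro ⟨v, w⟩ h
    simp only [Finset.mem_sigma, Finset.mem_compl, Finset.mem_insert, not_or] at h ⊢
    exact ⟨h.2.2, fun h3 => h.2.1 h3.symm, h.1⟩
  · rintro ⟨v, w⟩ h
    rfl

theorem bd_chains {X : Finset (Finset V)} (hX : ∀ σ ∈ X, ∀ τ ⊆ σ, τ ∈ X) {s : ℕ}
    {c : Finset V → ZMod 2} (hc : c ∈ chains X (s + 1)) : bd c ∈ chains X s := by
  rw [mem_chains] at hc ⊢
  intro σ h
  rw [bd_apply] at h
  obtain ⟨v, hv, hne⟩ := Finset.exists_ne_zero_of_sum_ne_zero h
  obtain ⟨h1, h2⟩ := hc _ hne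
  rw [Finset.card_insert_of_notMem (by simpa using hv)] at h2
  exact ⟨hX _ h1 _ (Finset.subset_insert _ _), by omega⟩

theorem bd_chains_zero {X : Finset (Finset V)}
    {c : Finset V → ZMod 2} (hc : c ∈ chains X 0) : bd c = 0 := by
  rw [mem_chains] at hc
  funext ρ
  rw [bd_apply]
  apply Finset.sum_eq_zero
  intro v _
  by_contra h
  have := (hc _ h).2
  rw [Finset.card_eq_zero] at this
  exact Finset.insert_ne_empty _ _ this

theorem boundaries_le {X : Finset (Finset V)} (hX : ∀ σ ∈ X, ∀ τ ⊆ σ, τ ∈ X) (s : ℕ) :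
    boundaries X s ≤ cycles X s := by
  intro c hc
  rw [mem_boundaries] at hc
  obtain ⟨b, hb, rfl⟩ := hc
  rw [mem_cycles]
  exact ⟨bd_chains hX hb, bd_bd b⟩

/-- the chain space in a fixed size is a coordinate space -/
def chainEquiv (X : Finset (Finset V)) (s : ℕ) :
    chains X s ≃ₗ[ZMod 2] ({σ // σ ∈ X.filter fun σ => σ.card = s} → ZMod 2) where
  toFun c σ := c.1 σ.1
  map_add' _ _ := rfl
  map_smul' _ _ := rfl
  invFun f := ⟨fun σ => if h : σ ∈ X.filter (fun σ => σ.card = s) then f ⟨σ, h⟩ else 0, by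
    rw [mem_chains]
    intro σ h
    by_cases h1 : σ ∈ X.filter fun σ => σ.card = s
    · exact Finset.mem_filter.1 h1
    · simp only [h1, dite_false] at h
      exact absurd rfl h⟩
  left_inv := by
    intro c
    apply Subtype.ext
    funext σ
    by_cases h1 : σ ∈ X.filter fun σ => σ.card = s
    · simp only [h1, dite_true]
    · simp only [h1, dite_false]
      by_contra h
      exact h1 (Finset.mem_filter.2 (mem_chains.1 c.2 σ (fun h2 => h h2.symm)))
  right_inv := by
    intro f
    funext ⟨σ, h⟩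
    simp only [h, dite_true]

theorem finrank_chains (X : Finset (Finset V)) (s : ℕ) :
    Module.finrank (ZMod 2) (chains X s) = (X.filter fun σ => σ.card = s).card := by
  rw [(chainEquiv X s).finrank_eq, Module.finrank_fintype_fun_eq_card, Fintype.card_coe]

theorem rank_nullity (X : Finset (Finset V)) (s : ℕ) :
    Module.finrank (ZMod 2) ((chains X s).map bd) + Module.finrank (ZMod 2) (cycles X s) =
      Module.finrank (ZMod 2) (chains X s) := by
  have h := LinearMap.finrank_range_add_finrank_ker (bd.domRestrict (chains X s))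
  have h1 : LinearMap.range (bd.domRestrict (chains X s)) = (chains X s).map bd := by
    ext c
    simp [Submodule.mem_map]
  have h2 : Module.finrank (ZMod 2) (LinearMap.ker (bd.domRestrict (chains X s))) =
      Module.finrank (ZMod 2) (cycles X s) := by
    have h3 : (LinearMap.ker (bd.domRestrict (chains X s))).map (chains X s).subtype =
        cycles X s := by
      ext c
      simp only [Submodule.mem_map, LinearMap.mem_ker, Submodule.subtype_apply, mem_cycles]
      constructor
      · rintro ⟨⟨a, ha⟩, h1, h2⟩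
        subst h2
        exact ⟨ha, h1⟩
      · rintro ⟨h1, h2⟩
        exact ⟨⟨c, h1⟩, h2, rfl⟩
    rw [← h3]
    exact (LinearEquiv.finrank_eq (Submodule.equivMapOfInjective _
      (Submodule.injective_subtype _) _))
  rw [h1, h2] at h
  exact h

theorem betti_add {X : Finset (Finset V)} (hX : ∀ σ ∈ X, ∀ τ ⊆ σ, τ ∈ X) (s : ℕ) :
    betti X s + Module.finrank (ZMod 2) (boundaries X s) =
      Module.finrank (ZMod 2) (cycles X s) := by
  unfold betti
  have h1 := Submodule.finrank_quotient_add_finrank ((boundaries X s).submoduleOf (cycles X s))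
  rw [LinearEquiv.finrank_eq (Submodule.submoduleOfEquivOfLe (boundaries_le hX s))] at h1
  exact h1

theorem euler_aux {X : Finset (Finset V)} (hX : ∀ σ ∈ X, ∀ τ ⊆ σ, τ ∈ X) (N : ℕ) :
    ∑ s ∈ range (N + 1), (-1 : ℤ) ^ s *
      (((X.filter fun σ => σ.card = s).card : ℤ) - betti X s) =
    (-1) ^ N * Module.finrank (ZMod 2) (boundaries X N) := by
  induction N with
  | zero =>
    simp only [zero_add, range_one, sum_singleton, pow_zero, one_mul]
    have h1 := rank_nullity X 0
    have h2 : (chains X 0).map bd = ⊥ := by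
      rw [Submodule.eq_bot_iff]
      intro c hc
      obtain ⟨b, hb, rfl⟩ := Submodule.mem_map.1 hc
      exact bd_chains_zero hb
    rw [h2, finrank_bot, zero_add, finrank_chains] at h1
    have h3 := betti_add hX 0
    rw [← h1, ← h3]
    push_cast
    ring
  | succ N ih =>
    rw [Finset.sum_range_succ, ih]
    have h1 := rank_nullity X (N + 1)
    rw [finrank_chains] at h1
    have h2 : (chains X (N + 1)).map bd = boundaries X N := rfl
    rw [h2] at h1
    have h3 := betti_add hX (N + 1)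
    rw [← h1, ← h3]
    push_cast
    ring

theorem euler {X : Finset (Finset V)} (hX : ∀ σ ∈ X, ∀ τ ⊆ σ, τ ∈ X) :
    ∑ σ ∈ X, (-1 : ℤ) ^ σ.card =
      ∑ s ∈ range (Fintype.card V + 1), (-1 : ℤ) ^ s * betti X s := by
  have h1 := euler_aux hX (Fintype.card V)
  have h2 : boundaries X (Fintype.card V) = ⊥ := by
    rw [Submodule.eq_bot_iff]
    intro c hc
    obtain ⟨b, hb, rfl⟩ := mem_boundaries.1 hc
    have : b = 0 := by
      funext σ
      by_contra h
      have h3 := (mem_chains.1 hb σ h).2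
      have h4 := Finset.card_le_univ σ
      omega
    rw [this, map_zero]
  rw [h2, finrank_bot] at h1
  simp only [mul_sub, Finset.sum_sub_distrib] at h1
  have h3 : ∑ σ ∈ X, (-1 : ℤ) ^ σ.card = ∑ s ∈ range (Fintype.card V + 1),
      (-1 : ℤ) ^ s * ((X.filter fun σ => σ.card = s).card : ℤ) := by
    rw [← Finset.sum_fiberwise_of_maps_to (s := X) (t := range (Fintype.card V + 1))
      (g := fun σ => σ.card)
      (fun σ _ => Finset.mem_range.2 (Nat.lt_succ_of_le (Finset.card_le_univ σ)))]
    apply Finset.sum_congr rfl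
    intro s _
    rw [Finset.sum_congr rfl (g := fun _ => (-1 : ℤ) ^ s)]
    · rw [Finset.sum_const, nsmul_eq_mul, mul_comm]
    · intro σ hσ
      rw [(Finset.mem_filter.1 hσ).2]
  rw [h3]
  have h4 : ((0 : ℕ) : ℤ) = 0 := rfl
  rw [h4, mul_zero] at h1
  linarith

theorem link_down {X : Finset (Finset V)} (hX : ∀ σ ∈ X, ∀ τ ⊆ σ, τ ∈ X) (σ : Finset V) :
    ∀ ρ ∈ link X σ, ∀ τ ⊆ ρ, τ ∈ link X σ := by
  intro ρ hρ τ hτ
  rw [mem_link] at hρ ⊢
  exact ⟨hX _ hρ.1 _ hτ, hX _ hρ.2.1 _ (Finset.union_subset_union_left hτ),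
    Disjoint.mono_left hτ hρ.2.2⟩

/-- a homology sphere is Eulerian -/
theorem eulerian {d : ℕ} {X : Cplx V} (h : IsSphere d X) (σ : Finset V) (hσ : σ ∈ X.faces) :
    ∑ τ ∈ X.faces.filter (fun τ => σ ⊆ τ), (-1 : ℤ) ^ τ.card = (-1) ^ d := by
  have h2 := h.2.1
  have h3 := h.2.2
  have h4 := euler (link_down X.down σ)
  have h5 : ∑ s ∈ range (Fintype.card V + 1), (-1 : ℤ) ^ s * betti (link X.faces σ) s
      = (-1) ^ (d - σ.card) := by
    have hd := h2 σ hσ
    rw [Finset.sum_eq_single (d - σ.card)]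
    · rw [h3 σ hσ, if_pos (by omega)]
      simp
    · intro s _ hs
      rw [h3 σ hσ, if_neg (by omega)]
      simp
    · intro hs
      exfalso
      apply hs
      rw [Finset.mem_range]
      obtain ⟨τ, -, -, h6⟩ := h.1 ∅ X.empty_mem
      have := Finset.card_le_univ τ
      omega
  rw [h5] at h4
  have h6 : ∑ τ ∈ X.faces.filter (fun τ => σ ⊆ τ), (-1 : ℤ) ^ τ.card
      = ∑ ρ ∈ link X.faces σ, (-1) ^ (ρ.card + σ.card) := by
    apply Finset.sum_bij' (i := fun τ _ => τ \ σ) (j := fun ρ _ => ρ ∪ σ)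
    · intro τ hτ
      rw [Finset.mem_filter] at hτ
      rw [mem_link]
      refine ⟨X.down _ hτ.1 _ Finset.sdiff_subset, ?_, Finset.sdiff_disjoint⟩
      rw [Finset.sdiff_union_of_subset hτ.2]
      exact hτ.1
    · intro ρ hρ
      rw [mem_link] at hρ
      rw [Finset.mem_filter]
      exact ⟨hρ.2.1, Finset.subset_union_right⟩
    · intro τ hτ
      rw [Finset.mem_filter] at hτ
      exact Finset.sdiff_union_of_subset hτ.2
    · intro ρ hρ
      rw [mem_link] at hρ
      exact Finset.union_sdiff_cancel_right hρ.2.2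
    · intro τ hτ
      rw [Finset.mem_filter] at hτ
      rw [Finset.card_sdiff_add_card_eq_card hτ.2]
  rw [h6]
  simp only [pow_add]
  rw [← Finset.sum_mul, h4, ← pow_add]
  congr 1
  have := h2 σ hσ
  omega

end hom

/-! ### Dehn–Sommerville -/

section ds

variable {V : Type} [Fintype V] [DecidableEq V]

open Polynomial in
theorem hPoly_eq {d : ℕ} {X : Cplx V} (h : IsSphere d X) :
    hPoly d X = ∑ σ ∈ X.faces, (Polynomial.X - 1 : Polynomial ℤ) ^ (d - σ.card) := by
  have hd := h.2.1
  have h1 : ∀ σ ∈ X.faces, (Polynomial.X - 1 : Polynomial ℤ) ^ (d - σ.card) =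
      ∑ τ ∈ X.faces.filter (fun τ => σ ⊆ τ),
        (Polynomial.X - 1 : Polynomial ℤ) ^ (d - σ.card) * (-1) ^ (d + τ.card) := by
    intro σ hσ
    rw [← Finset.mul_sum]
    have h2 := congrArg (fun n : ℤ => (n : Polynomial ℤ)) (eulerian h σ hσ)
    simp only [Int.cast_sum, Int.cast_pow, Int.cast_neg, Int.cast_one] at h2
    simp only [pow_add]
    rw [← Finset.mul_sum, h2, ← pow_add, Even.neg_one_pow ⟨d, rfl⟩, mul_one]
  rw [Finset.sum_congr rfl h1]
  have h3 : ∑ σ ∈ X.faces, ∑ τ ∈ X.faces.filter (fun τ => σ ⊆ τ),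
        (Polynomial.X - 1 : Polynomial ℤ) ^ (d - σ.card) * (-1) ^ (d + τ.card) =
      ∑ τ ∈ X.faces, ∑ σ ∈ τ.powerset,
        (Polynomial.X - 1 : Polynomial ℤ) ^ (d - σ.card) * (-1) ^ (d + τ.card) := by
    apply Finset.sum_comm'
    intro σ τ
    rw [Finset.mem_filter, Finset.mem_powerset]
    constructor
    · rintro ⟨_, h2, h3⟩
      exact ⟨h3, h2⟩
    · rintro ⟨h1, h2⟩
      exact ⟨X.down _ h2 _ h1, h2, h1⟩
  rw [h3]
  unfold hPoly
  apply Finset.sum_congr rfl
  intro τ hτ
  have h4 := Finset.sum_pow_mul_eq_add_pow (1 : Polynomial ℤ) (Polynomial.X - 1) τ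
  rw [add_sub_cancel] at h4
  have hτd := hd τ hτ
  rw [← h4, Finset.sum_mul]
  apply Finset.sum_congr rfl
  intro σ hσ
  have hστ := Finset.card_le_card (Finset.mem_powerset.1 hσ)
  obtain ⟨a, ha⟩ : ∃ a, τ.card = σ.card + a := ⟨τ.card - σ.card, by omega⟩
  obtain ⟨b, hb⟩ : ∃ b, d = τ.card + b := ⟨d - τ.card, by omega⟩
  have e1 : τ.card - σ.card = a := by omega
  have e2 : d - τ.card = b := by omega
  have e3 : d - σ.card = a + b := by omega
  have e4 : d + τ.card = b + (τ.card + τ.card) := by omega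
  rw [e1, e2, e3, e4, pow_add (-1 : Polynomial ℤ), Even.neg_one_pow ⟨τ.card, rfl⟩, one_pow,
    one_mul, mul_one, pow_add, mul_assoc, ← mul_pow]
  congr 2
  ring

theorem coeff_X_sub_C_pow' (n k : ℕ) :
    ((Polynomial.X - Polynomial.C 1 : Polynomial ℤ) ^ n).coeff k =
      (-1) ^ (n - k) * (n.choose k : ℤ) := by
  have h : (Polynomial.X - Polynomial.C 1 : Polynomial ℤ) =
      Polynomial.X + Polynomial.C (-1) := by
    simp [sub_eq_add_neg]
  rw [h, Polynomial.coeff_X_add_C_pow]

theorem coeff_term (s t j : ℕ) :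
    (Polynomial.X ^ s * (1 - Polynomial.X : Polynomial ℤ) ^ t).coeff j =
      if s ≤ j then (-1) ^ (j - s) * (t.choose (j - s) : ℤ) else 0 := by
  rw [Polynomial.coeff_X_pow_mul']
  split_ifs with h
  · have h1 : (1 - Polynomial.X : Polynomial ℤ) ^ t =
        Polynomial.C ((-1) ^ t) * (Polynomial.X - Polynomial.C 1) ^ t := by
      rw [map_pow, ← mul_pow]
      congr 1
      simp
    rw [h1, Polynomial.coeff_C_mul, coeff_X_sub_C_pow']
    by_cases h2 : j - s ≤ t
    · rw [← mul_assoc, ← pow_add]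
      congr 1
      have e : t + (t - (j - s)) = 2 * (t - (j - s)) + (j - s) := by omega
      rw [e, pow_add, pow_mul]
      norm_num
    · rw [Nat.choose_eq_zero_of_lt (by omega)]
      simp
  · rfl

theorem coeff_symm {d : ℕ} {X : Cplx V} (h : IsSphere d X) {j : ℕ} (hj : j ≤ d) :
    (hPoly d X).coeff j = (hPoly d X).coeff (d - j) := by
  conv_rhs => rw [hPoly_eq h]
  unfold hPoly
  rw [Polynomial.finsetSum_coeff, Polynomial.finsetSum_coeff]
  apply Finset.sum_congr rfl
  intro σ hσ
  have hd := h.2.1 σ hσ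
  rw [coeff_term]
  have h1 : (Polynomial.X - 1 : Polynomial ℤ) = Polynomial.X - Polynomial.C 1 := by simp
  rw [h1, coeff_X_sub_C_pow']
  split_ifs with h2
  · have e : d - σ.card - (d - j) = j - σ.card := by omega
    rw [e]
    congr 2
    rw [← Nat.choose_symm (show d - j ≤ d - σ.card by omega)]
    congr 1
    omega
  · rw [Nat.choose_eq_zero_of_lt (by omega)]
    simp

theorem coeff_big {d : ℕ} {X : Cplx V} (h : IsSphere d X) {j : ℕ} (hj : d < j) :
    (hPoly d X).coeff j = 0 := by
  unfold hPoly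
  rw [Polynomial.finsetSum_coeff]
  apply Finset.sum_eq_zero
  intro σ hσ
  have hd := h.2.1 σ hσ
  rw [coeff_term]
  split_ifs with h2
  · rw [Nat.choose_eq_zero_of_lt (by omega)]
    simp
  · rfl

theorem coeff_zero {d : ℕ} (X : Cplx V) : (hPoly d X).coeff 0 = 1 := by
  unfold hPoly
  rw [Polynomial.finsetSum_coeff, Finset.sum_eq_single ∅]
  · rw [coeff_term]
    simp
  · intro σ _ hσ
    rw [coeff_term, if_neg]
    intro h
    apply hσ
    rw [← Finset.card_eq_zero]
    omega
  · intro h
    exact absurd X.empty_mem h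

theorem coeff_sum {d : ℕ} (Z : Cplx V) (hZ : IsSphere d Z) (j : ℕ) :
    (hPoly d Z).coeff j = ∑ s ∈ range (d + 1),
      ((Z.faces.filter fun σ => σ.card = s).card : ℤ) *
        (if s ≤ j then (-1) ^ (j - s) * ((d - s).choose (j - s) : ℤ) else 0) := by
  unfold hPoly
  rw [Polynomial.finsetSum_coeff]
  rw [← Finset.sum_fiberwise_of_maps_to (s := Z.faces) (t := range (d + 1))
    (g := fun σ => σ.card) (fun σ hσ => Finset.mem_range.2 (Nat.lt_succ_of_le (hZ.2.1 σ hσ)))]
  apply Finset.sum_congr rfl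
  intro s _
  rw [Finset.sum_congr rfl (g := fun _ =>
    (if s ≤ j then (-1) ^ (j - s) * ((d - s).choose (j - s) : ℤ) else 0))]
  · rw [Finset.sum_const, nsmul_eq_mul]
  · intro σ hσ
    rw [coeff_term, (Finset.mem_filter.1 hσ).2]

/-- equality of the `g`-numbers in the lower half gives equality of the `h`-polynomials -/
theorem hPoly_of_g {W : Type} [Fintype W] [DecidableEq W] {d : ℕ} {X : Cplx V} {Y : Cplx W}
    (hX : IsSphere d X) (hY : IsSphere d Y)
    (hg : ∀ j, 1 ≤ j → j ≤ d / 2 → gNum d X j = gNum d Y j) : hPoly d X = hPoly d Y := by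
  have h1 : ∀ j, j ≤ d / 2 → (hPoly d X).coeff j = (hPoly d Y).coeff j := by
    intro j
    induction j with
    | zero => intro _; rw [coeff_zero, coeff_zero]
    | succ j ih =>
      intro hj
      have h2 := hg (j + 1) (by omega) hj
      unfold gNum at h2
      rw [Nat.add_sub_cancel, ih (by omega)] at h2
      linarith
  ext j
  by_cases hj : j ≤ d / 2
  · exact h1 j hj
  · by_cases hj2 : j ≤ d
    · rw [coeff_symm hX hj2, coeff_symm hY hj2]
      exact h1 _ (by omega)
    · rw [coeff_big hX (by omega), coeff_big hY (by omega)]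

/-- the `h`-polynomial determines the face numbers -/
theorem faces_of_h {W : Type} [Fintype W] [DecidableEq W] {d : ℕ} {X : Cplx V} {Y : Cplx W}
    (hX : IsSphere d X) (hY : IsSphere d Y) (h : hPoly d X = hPoly d Y) (s : ℕ) :
    (X.faces.filter fun σ => σ.card = s).card = (Y.faces.filter fun σ => σ.card = s).card := by
  have key : ∀ {U : Type} [Fintype U] [DecidableEq U] (Z : Cplx U), IsSphere d Z → ∀ j,
      (hPoly d Z).coeff j = ∑ s ∈ range (d + 1),
        ((Z.faces.filter fun σ => σ.card = s).card : ℤ) *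
          (if s ≤ j then (-1) ^ (j - s) * ((d - s).choose (j - s) : ℤ) else 0) := by
    intro U _ _ Z hZ j
    unfold hPoly
    rw [Polynomial.finsetSum_coeff]
    rw [← Finset.sum_fiberwise_of_maps_to (s := Z.faces) (t := range (d + 1))
      (g := fun σ => σ.card) (fun σ hσ => Finset.mem_range.2 (Nat.lt_succ_of_le (hZ.2.1 σ hσ)))]
    apply Finset.sum_congr rfl
    intro s _
    rw [Finset.sum_congr rfl (g := fun _ =>
      (if s ≤ j then (-1) ^ (j - s) * ((d - s).choose (j - s) : ℤ) else 0))]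
    · rw [Finset.sum_const, nsmul_eq_mul]
    · intro σ hσ
      rw [coeff_term, (Finset.mem_filter.1 hσ).2]
  have big : ∀ {U : Type} [Fintype U] [DecidableEq U] (Z : Cplx U), IsSphere d Z → ∀ s, d < s →
      (Z.faces.filter fun σ => σ.card = s).card = 0 := by
    intro U _ _ Z hZ s hs
    rw [Finset.card_eq_zero, Finset.filter_eq_empty_iff]
    intro σ hσ h2
    have := hZ.2.1 σ hσ
    omega
  by_cases hs : s ≤ d
  swap
  · rw [big X hX s (by omega), big Y hY s (by omega)]
  induction s using Nat.strong_induction_on with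
  | _ s ih =>
    have h1 : (hPoly d X).coeff s = (hPoly d Y).coeff s := by rw [h]
    rw [key X hX, key Y hY] at h1
    rw [← Finset.add_sum_erase _ _ (Finset.mem_range.2 (show s < d + 1 by omega)),
      ← Finset.add_sum_erase (range (d + 1)) (fun s' =>
        ((Y.faces.filter fun σ => σ.card = s').card : ℤ) *
          (if s' ≤ s then (-1) ^ (s - s') * ((d - s').choose (s - s') : ℤ) else 0))
        (Finset.mem_range.2 (show s < d + 1 by omega))] at h1
    have h2 : ∑ s' ∈ (range (d + 1)).erase s, ((X.faces.filter fun σ => σ.card = s').card : ℤ) *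
          (if s' ≤ s then (-1) ^ (s - s') * ((d - s').choose (s - s') : ℤ) else 0) =
        ∑ s' ∈ (range (d + 1)).erase s, ((Y.faces.filter fun σ => σ.card = s').card : ℤ) *
          (if s' ≤ s then (-1) ^ (s - s') * ((d - s').choose (s - s') : ℤ) else 0) := by
      apply Finset.sum_congr rfl
      intro s' hs'
      rw [Finset.mem_erase, Finset.mem_range] at hs'
      split_ifs with h3
      · rw [ih s' (by omega) (by omega)]
      · simp
    rw [h2] at h1
    simp only [le_refl, if_true, Nat.sub_self, pow_zero, Nat.choose_zero_right, Nat.cast_one,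
      mul_one] at h1
    have h4 := add_right_cancel h1
    exact_mod_cast h4

end ds

/-! ### Uniqueness -/

section uniq

variable {V : Type} [Fintype V] [DecidableEq V]

theorem exists_missing (X : Cplx V) (τ : Finset V) (h : τ ∉ X.faces) :
    ∃ M, M ⊆ τ ∧ IsMissing X M := by
  induction τ using Finset.strongInduction with
  | H τ ih =>
    by_cases h1 : ∀ ρ, ρ ⊂ τ → ρ ∈ X.faces
    · exact ⟨τ, subset_rfl, h, h1⟩
    · push Not at h1
      obtain ⟨ρ, h2, h3⟩ := h1
      obtain ⟨M, h4, h5⟩ := ih ρ h2 h3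
      exact ⟨M, h4.trans h2.1, h5⟩

/-- every vertex of a homology sphere lies in a missing face: a cone is not a sphere -/
theorem exists_missing_mem {d : ℕ} {X : Cplx V} (h : IsSphere d X) (v : V) :
    ∃ M, IsMissing X M ∧ v ∈ M := by
  by_contra hcon
  push Not at hcon
  have h1 : ∀ σ ∈ X.faces, insert v σ ∈ X.faces := by
    intro σ hσ
    by_contra h2
    obtain ⟨M, h3, h4⟩ := exists_missing X _ h2
    have h5 := hcon M h4
    apply h4.1
    apply X.down σ hσ
    intro x hx
    rcases Finset.mem_insert.1 (h3 hx) with h6 | h6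
    · subst h6
      exact absurd hx h5
    · exact h6
  have h2 := eulerian h ∅ X.empty_mem
  have h3 : ∑ τ ∈ X.faces.filter (fun τ => ∅ ⊆ τ), (-1 : ℤ) ^ τ.card = 0 := by
    apply Finset.sum_involution (g := fun σ _ => if v ∈ σ then σ.erase v else insert v σ)
    · intro σ _
      split_ifs with hv
      · have h4 := Finset.card_erase_add_one hv
        rw [← h4, pow_succ]
        ring
      · rw [Finset.card_insert_of_notMem hv, pow_succ]
        ring
    · intro σ _ _
      split_ifs with hv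
      · intro h4
        rw [← h4] at hv
        simp at hv
      · intro h4
        rw [← h4] at hv
        simp at hv
    · intro σ _
      by_cases hv : v ∈ σ
      · simp [hv, Finset.insert_erase hv]
      · simp [hv, Finset.erase_insert hv]
    · intro σ hσ
      rw [Finset.mem_filter] at hσ ⊢
      refine ⟨?_, Finset.empty_subset _⟩
      split_ifs with hv
      · exact X.down _ hσ.1 _ (Finset.erase_subset _ _)
      · exact h1 _ hσ.1
  rw [h3] at h2
  exact pow_ne_zero d (by norm_num : (-1 : ℤ) ≠ 0) h2.symm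

/-- the isomorphism from a family of sets -/
theorem iso_of_family {m : ℕ} {b : Fin m → ℕ} (hb : ∀ j, 2 ≤ b j) {X : Cplx V}
    (P : Fin m → Finset V) (hP1 : ∀ j, (P j).card = b j) (hP2 : ∀ j, P j ∉ X.faces)
    (hP3 : ∀ σ, σ ∉ X.faces → ∃ j, P j ⊆ σ) (hP4 : ∀ v, ∃ j, v ∈ P j)
    (hV : Fintype.card V = ∑ j, b j) : Iso X (joinBd b hb) := by
  choose c hc using hP4
  have h1 : ∀ j, (Finset.univ.filter fun v => c v = j) ⊆ P j := by
    intro j v hv
    rw [Finset.mem_filter] at hv
    rw [← hv.2]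
    exact hc v
  have h2 : ∑ j, (Finset.univ.filter fun v => c v = j).card = ∑ j, (P j).card := by
    rw [← Finset.card_eq_sum_card_fiberwise (f := c) (t := Finset.univ)
      (fun x _ => Finset.mem_univ _), Finset.card_univ, hV]
    exact Finset.sum_congr rfl fun j _ => (hP1 j).symm
  have h3 : ∀ j, (Finset.univ.filter fun v => c v = j).card = (P j).card := by
    intro j
    exact (Finset.sum_eq_sum_iff_of_le fun j _ => Finset.card_le_card (h1 j)).1 h2 j
      (Finset.mem_univ j)
  have h4 : ∀ j, (Finset.univ.filter fun v => c v = j) = P j := fun j =>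
    Finset.eq_of_subset_of_card_le (h1 j) (h3 j).ge
  have h5 : ∀ j, Fintype.card {v // c v = j} = b j := by
    intro j
    rw [Fintype.card_subtype, h3, hP1]
  let e : V ≃ JV b := (Equiv.sigmaFiberEquiv c).symm.trans
    (Equiv.sigmaCongrRight fun j => Fintype.equivFinOfCardEq (h5 j))
  have he : ∀ v, (e v).1 = c v := fun v => rfl
  refine ⟨e, fun σ => ?_⟩
  rw [mem_joinBd]
  have h6 : ∀ j, block b j ⊆ σ.map e.toEmbedding ↔ P j ⊆ σ := by
    intro j
    constructor
    · intro h v hv
      rw [← h4, Finset.mem_filter] at hv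
      have h7 : e v ∈ block b j := mem_block.2 ((he v).trans hv.2)
      have h8 := h h7
      rw [Finset.mem_map] at h8
      obtain ⟨w, hw, h9⟩ := h8
      rw [Equiv.coe_toEmbedding] at h9
      rw [← e.injective h9]
      exact hw
    · intro h x hx
      rw [mem_block] at hx
      rw [Finset.mem_map]
      refine ⟨e.symm x, h ?_, by simp⟩
      rw [← h4, Finset.mem_filter]
      refine ⟨Finset.mem_univ _, ?_⟩
      rw [← he, Equiv.apply_symm_apply, hx]
  constructor
  · intro hσ j h
    exact hP2 j (X.down _ hσ _ ((h6 j).1 h))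
  · intro h
    by_contra hσ
    obtain ⟨j, hj⟩ := hP3 σ hσ
    exact h j ((h6 j).2 hj)

/-- the number of supersets of a given set -/
theorem card_super (M : Finset V) (s : ℕ) (h : M.card ≤ s) :
    ((Finset.univ.powersetCard s).filter fun τ => M ⊆ τ).card =
      (Fintype.card V - M.card).choose (s - M.card) := by
  have h1 : (Finset.powersetCard (s - M.card) (Finset.univ \ M)).card =
      (Fintype.card V - M.card).choose (s - M.card) := by
    rw [Finset.card_powersetCard, Finset.card_univ_sdiff]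
  rw [← h1]
  apply Finset.card_bij' (i := fun τ _ => τ \ M) (j := fun ρ _ => ρ ∪ M)
  · intro τ hτ
    rw [Finset.mem_filter, Finset.mem_powersetCard] at hτ
    rw [Finset.mem_powersetCard]
    refine ⟨Finset.sdiff_subset_sdiff (Finset.subset_univ _) subset_rfl, ?_⟩
    rw [Finset.card_sdiff_of_subset hτ.2, hτ.1.2]
  · intro ρ hρ
    rw [Finset.mem_powersetCard] at hρ
    rw [Finset.mem_filter, Finset.mem_powersetCard]
    refine ⟨⟨Finset.subset_univ _, ?_⟩, Finset.subset_union_right⟩
    have hd : Disjoint ρ M := by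
      rw [Finset.disjoint_left]
      intro x hx
      exact (Finset.mem_sdiff.1 (hρ.1 hx)).2
    rw [Finset.card_union_of_disjoint hd, hρ.2]
    omega
  · intro τ hτ
    rw [Finset.mem_filter] at hτ
    exact Finset.sdiff_union_of_subset hτ.2
  · intro ρ hρ
    rw [Finset.mem_powersetCard] at hρ
    have hd : Disjoint ρ M := by
      rw [Finset.disjoint_left]
      intro x hx
      exact (Finset.mem_sdiff.1 (hρ.1 hx)).2
    exact Finset.union_sdiff_cancel_right hd

/-- the nonfaces with `s` elements -/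
def NF (X : Cplx V) (s : ℕ) : Finset (Finset V) :=
  (Finset.univ.powersetCard s).filter fun τ => τ ∉ X.faces

theorem mem_NF {X : Cplx V} {s : ℕ} {τ : Finset V} : τ ∈ NF X s ↔ τ.card = s ∧ τ ∉ X.faces := by
  simp [NF]

theorem card_NF (X : Cplx V) (s : ℕ) :
    (NF X s).card + (X.faces.filter fun σ => σ.card = s).card = (Fintype.card V).choose s := by
  have h1 : (X.faces.filter fun σ => σ.card = s) =
      (Finset.univ.powersetCard s).filter fun τ => ¬ τ ∉ X.faces := by
    ext τ
    simp [and_comm]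
  rw [h1]
  unfold NF
  rw [Finset.card_filter_add_card_filter_not, Finset.card_powersetCard, Finset.card_univ]

theorem card_one (X : Cplx V) : (X.faces.filter fun σ => σ.card = 1).card = Fintype.card V := by
  have h1 : (X.faces.filter fun σ => σ.card = 1) =
      Finset.univ.map ⟨fun v : V => ({v} : Finset V), Finset.singleton_injective⟩ := by
    ext τ
    simp only [Finset.mem_filter, Finset.mem_map, Finset.mem_univ, true_and,
      Function.Embedding.coeFn_mk]
    constructor
    · rintro ⟨_, h⟩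
      obtain ⟨v, hv⟩ := Finset.card_eq_one.1 h
      exact ⟨v, hv.symm⟩
    · rintro ⟨v, rfl⟩
      exact ⟨X.single_mem v, Finset.card_singleton v⟩
  rw [h1, Finset.card_map, Finset.card_univ]

/-- Uniqueness from the face numbers. -/
theorem uniq {m : ℕ} {b : Fin m → ℕ} (hb : ∀ j, 2 ≤ b j) {i : ℕ} (j₀ : Fin m)
    (hb0 : b j₀ ≤ i + 1) (hb1 : ∀ j, j ≠ j₀ → b j = i + 1) {X : Cplx V}
    (hf : ∀ s, (X.faces.filter fun σ => σ.card = s).card =
      ((joinBd b hb).faces.filter fun σ => σ.card = s).card)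
    (hmiss : ∀ τ, IsMissing X τ → τ.card ≤ i + 1)
    (hcone : ∀ v, ∃ M, IsMissing X M ∧ v ∈ M) : Iso X (joinBd b hb) := by
  classical
  have hV : Fintype.card V = Fintype.card (JV b) := by
    rw [← card_one X, ← card_one (joinBd b hb)]
    exact hf 1
  have hJV : Fintype.card (JV b) = ∑ j, b j := by
    rw [Fintype.card_sigma]
    simp
  have hNF : ∀ s, (NF X s).card = (NF (joinBd b hb) s).card := by
    intro s
    have h1 := card_NF X s
    have h2 := card_NF (joinBd b hb) s
    rw [hf s, hV] at h1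
    omega
  have hbmin : ∀ j, b j₀ ≤ b j := by
    intro j
    by_cases h : j = j₀
    · rw [h]
    · rw [hb1 j h]; exact hb0
  -- nonfaces of the join
  have hK : ∀ τ, τ ∉ (joinBd b hb).faces → ∃ j, block b j ⊆ τ := by
    intro τ hτ
    rw [mem_joinBd] at hτ
    push Not at hτ
    exact hτ
  have hsmall : ∀ s, s < b j₀ → NF X s = ∅ := by
    intro s hs
    rw [← Finset.card_eq_zero, hNF, Finset.card_eq_zero, Finset.eq_empty_iff_forall_notMem]
    intro τ hτ
    rw [mem_NF] at hτ
    obtain ⟨j, hj⟩ := hK τ hτ.2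
    have h1 := Finset.card_le_card hj
    rw [card_block] at h1
    have := hbmin j
    omega
  -- the smallest missing face
  obtain ⟨M₀, hM₀⟩ : (NF X (b j₀)).Nonempty := by
    rw [← Finset.card_pos, hNF, Finset.card_pos]
    refine ⟨block b j₀, mem_NF.2 ⟨card_block j₀, ?_⟩⟩
    rw [mem_joinBd]
    push Not
    exact ⟨j₀, subset_rfl⟩
  rw [mem_NF] at hM₀
  have hM₀m : IsMissing X M₀ := by
    refine ⟨hM₀.2, fun ρ hρ => ?_⟩
    by_contra h
    have h1 : ρ ∈ NF X ρ.card := mem_NF.2 ⟨rfl, h⟩
    rw [hsmall ρ.card (by rw [← hM₀.1]; exact Finset.card_lt_card hρ)] at h1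
    simp at h1
  -- nonfaces not containing the smallest one
  have hA : ∀ s, b j₀ ≤ s → ((NF X s).filter fun τ => ¬ M₀ ⊆ τ).card =
      ((NF (joinBd b hb) s).filter fun τ => ¬ block b j₀ ⊆ τ).card := by
    intro s hs
    have h1 := Finset.card_filter_add_card_filter_not (s := NF X s) (fun τ => M₀ ⊆ τ)
    have h2 := Finset.card_filter_add_card_filter_not (s := NF (joinBd b hb) s)
      (fun τ => block b j₀ ⊆ τ)
    have h3 : (NF X s).filter (fun τ => M₀ ⊆ τ) =
        (Finset.univ.powersetCard s).filter fun τ => M₀ ⊆ τ := by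
      ext τ
      rw [Finset.mem_filter, mem_NF, Finset.mem_filter, Finset.mem_powersetCard]
      constructor
      · rintro ⟨⟨h4, _⟩, h5⟩
        exact ⟨⟨Finset.subset_univ _, h4⟩, h5⟩
      · rintro ⟨⟨_, h4⟩, h5⟩
        exact ⟨⟨h4, fun h6 => hM₀.2 (X.down _ h6 _ h5)⟩, h5⟩
    have h4 : (NF (joinBd b hb) s).filter (fun τ => block b j₀ ⊆ τ) =
        (Finset.univ.powersetCard s).filter fun τ => block b j₀ ⊆ τ := by
      ext τ
      rw [Finset.mem_filter, mem_NF, Finset.mem_filter, Finset.mem_powersetCard]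
      constructor
      · rintro ⟨⟨h4, _⟩, h5⟩
        exact ⟨⟨Finset.subset_univ _, h4⟩, h5⟩
      · rintro ⟨⟨_, h4⟩, h5⟩
        exact ⟨⟨h4, fun h6 => (mem_joinBd.1 h6) j₀ h5⟩, h5⟩
    rw [h3, card_super M₀ s (by rw [hM₀.1]; exact hs), hM₀.1, hV] at h1
    rw [h4, card_super (block b j₀) s (by rw [card_block]; exact hs), card_block] at h2
    have h5 := hNF s
    omega
  have hK2 : ∀ s, ∀ τ ∈ (NF (joinBd b hb) s).filter (fun τ => ¬ block b j₀ ⊆ τ),
      ∃ j, j ≠ j₀ ∧ block b j ⊆ τ ∧ i + 1 ≤ s := by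
    intro s τ hτ
    rw [Finset.mem_filter, mem_NF] at hτ
    obtain ⟨j, hj⟩ := hK τ hτ.1.2
    have hjj : j ≠ j₀ := by rintro rfl; exact hτ.2 hj
    have h1 := Finset.card_le_card hj
    rw [card_block, hb1 j hjj, hτ.1.1] at h1
    exact ⟨j, hjj, hj, h1⟩
  set A := (NF X (i + 1)).filter fun τ => ¬ M₀ ⊆ τ with hAdef
  have hAcard : A.card ≤ m - 1 := by
    rw [hAdef, hA (i + 1) hb0]
    have h1 : (NF (joinBd b hb) (i + 1)).filter (fun τ => ¬ block b j₀ ⊆ τ) ⊆
        (Finset.univ.erase j₀).image (block b) := by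
      intro τ hτ
      obtain ⟨j, h1, h2, _⟩ := hK2 _ τ hτ
      rw [Finset.mem_image]
      refine ⟨j, Finset.mem_erase.2 ⟨h1, Finset.mem_univ _⟩, ?_⟩
      rw [Finset.mem_filter, mem_NF] at hτ
      apply Finset.eq_of_subset_of_card_le h2
      rw [card_block, hb1 j h1, hτ.1.1]
    refine (Finset.card_le_card h1).trans (Finset.card_image_le.trans ?_)
    rw [Finset.card_erase_of_mem (Finset.mem_univ _), Finset.card_univ, Fintype.card_fin]
  -- all missing faces
  have hall : ∀ M, IsMissing X M → M = M₀ ∨ M ∈ A := by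
    intro M hM
    by_cases h1 : M₀ ⊆ M
    · left
      by_contra h2
      exact hM₀.2 (hM.2 M₀ ⟨h1, fun h3 => h2 (Finset.Subset.antisymm h3 h1)⟩)
    · right
      have h2 := hmiss M hM
      have h3 : M ∈ (NF X M.card).filter fun τ => ¬ M₀ ⊆ τ :=
        Finset.mem_filter.2 ⟨mem_NF.2 ⟨rfl, hM.1⟩, h1⟩
      have h5 : b j₀ ≤ M.card := by
        by_contra h5
        have h6 : M ∈ NF X M.card := mem_NF.2 ⟨rfl, hM.1⟩
        rw [hsmall _ (by omega)] at h6
        simp at h6
      have h4 := hA M.card h5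
      have h6 : 0 < ((NF (joinBd b hb) M.card).filter fun τ => ¬ block b j₀ ⊆ τ).card := by
        rw [← h4]
        exact Finset.card_pos.2 ⟨M, h3⟩
      obtain ⟨τ, hτ⟩ := Finset.card_pos.1 h6
      obtain ⟨_, _, _, h7⟩ := hK2 _ τ hτ
      have h8 : M.card = i + 1 := by omega
      rw [hAdef, ← h8]
      exact h3
  have hAsize : ∀ M ∈ A, M.card = i + 1 := by
    intro M hM
    rw [hAdef, Finset.mem_filter, mem_NF] at hM
    exact hM.1.1
  -- counting
  have hm : 0 < m := Fin.pos j₀
  have hsum : ∑ j, b j = b j₀ + (m - 1) * (i + 1) := by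
    rw [← Finset.add_sum_erase _ _ (Finset.mem_univ j₀)]
    congr 1
    rw [Finset.sum_congr rfl (g := fun _ => i + 1)
      (fun j hj => hb1 j (Finset.mem_erase.1 hj).1), Finset.sum_const,
      Finset.card_erase_of_mem (Finset.mem_univ _), Finset.card_univ, Fintype.card_fin,
      smul_eq_mul]
  have hcover : (Finset.univ : Finset V) ⊆ M₀ ∪ A.biUnion id := by
    intro v _
    obtain ⟨M, h1, h2⟩ := hcone v
    rw [Finset.mem_union, Finset.mem_biUnion]
    rcases hall M h1 with h3 | h3
    · left; rw [← h3]; exact h2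
    · right; exact ⟨M, h3, h2⟩
  have hAge : m - 1 ≤ A.card := by
    have h1 := Finset.card_le_card hcover
    have h2 := Finset.card_union_le M₀ (A.biUnion id)
    have h3 : (A.biUnion id).card ≤ A.card * (i + 1) :=
      Finset.card_biUnion_le_card_mul _ _ _ fun M hM => (hAsize M hM).le
    rw [Finset.card_univ, hV, hJV, hsum] at h1
    rw [hM₀.1] at h2
    have h4 : (m - 1) * (i + 1) ≤ A.card * (i + 1) := by omega
    exact Nat.le_of_mul_le_mul_right h4 (Nat.succ_pos i)
  have hAeq : A.card = m - 1 := le_antisymm hAcard hAge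
  have hcard : Fintype.card {j // j ≠ j₀} = Fintype.card A := by
    rw [Fintype.card_coe, hAeq, Fintype.card_subtype_compl, Fintype.card_fin,
      Fintype.card_subtype_eq]
  let ε : {j // j ≠ j₀} ≃ A := Fintype.equivOfCardEq hcard
  let P : Fin m → Finset V := fun j => if h : j = j₀ then M₀ else (ε ⟨j, h⟩).1
  have hP0 : P j₀ = M₀ := by simp [P]
  have hP : ∀ j (h : j ≠ j₀), P j = (ε ⟨j, h⟩).1 := by
    intro j h
    simp [P, h]
  have hPA : ∀ M ∈ A, ∃ j, P j = M := by
    intro M hM
    refine ⟨(ε.symm ⟨M, hM⟩).1, ?_⟩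
    rw [hP _ (ε.symm ⟨M, hM⟩).2]
    simp
  refine iso_of_family hb P ?_ ?_ ?_ ?_ (by rw [hV, hJV])
  · intro j
    by_cases h : j = j₀
    · rw [h, hP0, hM₀.1]
    · rw [hP j h, hAsize _ (ε ⟨j, h⟩).2, hb1 j h]
  · intro j
    by_cases h : j = j₀
    · rw [h, hP0]; exact hM₀.2
    · rw [hP j h]
      have h1 : ∀ M ∈ A, M ∉ X.faces := by
        intro M hM
        rw [hAdef, Finset.mem_filter, mem_NF] at hM
        exact hM.1.2
      exact h1 _ (ε ⟨j, h⟩).2
  · intro σ hσ
    obtain ⟨M, h1, h2⟩ := exists_missing X σ hσ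
    rcases hall M h2 with h3 | h3
    · exact ⟨j₀, by rw [hP0, ← h3]; exact h1⟩
    · obtain ⟨j, hj⟩ := hPA M h3
      exact ⟨j, by rw [hj]; exact h1⟩
  · intro v
    obtain ⟨M, h1, h2⟩ := hcone v
    rcases hall M h1 with h3 | h3
    · exact ⟨j₀, by rw [hP0, ← h3]; exact h2⟩
    · obtain ⟨j, hj⟩ := hPA M h3
      exact ⟨j, by rw [hj]; exact h2⟩

theorem kSizes_sum {i d : ℕ} (hd : 1 ≤ d) : ∑ j, (kSizes i d j - 1) = d := by
  rw [Fin.sum_univ_castSucc]
  have h1 : ∀ j : Fin ((d - 1) / i), kSizes i d j.castSucc - 1 = i := by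
    intro j
    unfold kSizes
    rw [if_pos (by simp)]
    simp
  rw [Finset.sum_congr rfl fun j _ => h1 j]
  simp only [Finset.sum_const, Finset.card_univ, Fintype.card_fin, smul_eq_mul]
  unfold kSizes
  rw [if_neg (by simp)]
  have := Nat.div_mul_le_self (d - 1) i
  omega

theorem main {i d : ℕ} (hi : 1 ≤ i) (hd : 1 ≤ d) {X : Cplx V} (hX : InS i d X)
    (hg : ∀ j, 1 ≤ j → j ≤ d / 2 → gNum d X j = gNum d (K i d hi hd) j) :
    Iso X (K i d hi hd) := by
  have hK : IsSphere d (K i d hi hd) := sphere_join _ _ (kSizes_sum hd)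
  have h1 := hPoly_of_g hX.1 hK hg
  have h2 := faces_of_h hX.1 hK h1
  refine uniq (kSizes_ge hi hd) (Fin.last _) ?_ ?_ h2 hX.2 (exists_missing_mem hX.1)
  · unfold kSizes
    rw [if_neg (by simp)]
    have := Nat.lt_div_mul_add (a := d - 1) (b := i) hi
    omega
  · intro j hj
    unfold kSizes
    rw [if_pos]
    have h3 : (j : ℕ) ≠ (d - 1) / i := fun h4 => hj (Fin.ext h4)
    have := j.2
    omega

end uniq

end Pool.Agent.Q250.GUniq
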